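import Pool.Agent.H8.OA.LiftB

/-!
# Siegel's theorem: one unknown integer point on one unknown curve for each real number field

For every `n` there are a number `E n` and, for every subfield `K` of `ℝ`, a polynomial `Φ n K` in `ℤ[x,y]` and a point
`(a n K, b n K)` in `ℤ²` with the following two properties. `H ≥ 2` bounds the absolute values of the coefficients,
`m = max(|x|,|y|)`.

(A) Let `k` be a number field of degree at least three and `G ∈ ℤ[x,y]` of total degree at most `n`, irreducible over `ℚ`,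
such that all points at infinity of the curve `G = 0` with real residue field carry `k` (`AtInf k G`). Every integer point
`(x,y)` of `G = 0` has `m ≤ H^(E n)`, or it lies, for some subfield `K` of `ℝ` isomorphic to `k`, over the one point
`(a n K, b n K)`: the curve `Φ n K = 0` also carries `K` at infinity, its degree is at most `E n`, its coefficients at most
`H^(E n)`, the point is on it, and there is a finite map of the curve `G = 0` to the curve `Φ n K = 0`, of degree at most
`E n` and with coefficients at most `H^(E n)`, which takes `(x,y)` to `(a n K, b n K)` (`Lies`, `Over`).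

(B) For every `n` there are `N` and `D`: let `F ∈ ℤ[x,y]` be of total degree at most `n`, without non-constant zeros in
`ℚ̄[s,1/s]` (`Scope F`: for an irreducible curve this is exactly the hypothesis of Siegel's theorem). Every integer point
`(x,y)` of `F = 0` has `m ≤ H^D`, or there is a number field `K ⊂ ℝ` of degree at least three and at most `D`, of
discriminant at most `H^D`, such that `(x,y)` lifts to an integer point `(x + c y, w)`, `0 ≤ c ≤ D`,
`m, |w| ≤ |x + c y|^D`, of a curve `G = 0` as in (A) of degree at most `N`, with coefficients at most `H^D` and `AtInf K G`,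
and this point lies over the point `(a N K, b N K)` of the curve `Φ N K = 0` as in (A), all heights at most `H^D`.

So Siegel's theorem holds for all plane curves with a bound polynomial in the coefficients, up to one unknown integer point
of one unknown curve for each real number field.
-/

namespace Pool.Agent.Results.MP_821da1_nt.OneCurveOnePoint

open MvPolynomial

/-- the hypothesis of Siegel's theorem: every solution of `F = 0` in `ℚ̄[s, 1/s]` is constant -/
def Scope (F : MvPolynomial (Fin 2) ℤ) : Prop :=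
  ∀ X Y : LaurentPolynomial (AlgebraicClosure ℚ),
    eval₂ (Int.castRingHom (LaurentPolynomial (AlgebraicClosure ℚ))) ![X, Y] F = 0 →
      ∃ a b : AlgebraicClosure ℚ, X = LaurentPolynomial.C a ∧ Y = LaurentPolynomial.C b

/-- `G` is irreducible over `ℚ`, and all points at infinity of `G = 0` with real residue field carry `k`: for every
number field `L` with a real embedding and all `X, Y` in `L((t))` with `G(X, Y) = 0`, either `X, Y` are in `L[[t]]` or
`k` embeds in `L` -/
def AtInf (k : Type) [Field k] (G : MvPolynomial (Fin 2) ℤ) : Prop :=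
  Irreducible (map (Int.castRingHom ℚ) G) ∧
    ∀ (L : Type) [Field L] [NumberField L], Nonempty (L →+* ℝ) → ∀ X Y : LaurentSeries L,
      eval₂ (Int.castRingHom (LaurentSeries L)) ![X, Y] G = 0 →
        (X ∈ (HahnSeries.ofPowerSeries ℤ L).range ∧ Y ∈ (HahnSeries.ofPowerSeries ℤ L).range) ∨
          Nonempty (k →+* L)

/-- the finite map `(A₁/A₀, A₂/A₀)` of the curve `G = 0` to the curve `Φ = 0`, of degree at most `E` and with coefficients
at most `H^E`, takes `(x,y)` to `(a,b)`: at all complex zeros `(s,t)` of `G` with `A₀(s,t) ≠ 0` its value `(U,W)` is a zero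
of `Φ`, and `|U|, |W|` are bounded by a polynomial in `|s|, |t|` (no poles at finite points), `|s|, |t|` by a polynomial
in `|U|` (finiteness) -/
def Over (E H : ℕ) (G Φ : MvPolynomial (Fin 2) ℤ) (x y a b : ℤ) : Prop :=
  ∃ A : Fin 3 → MvPolynomial (Fin 2) ℤ,
    (∀ i, (A i).totalDegree ≤ E ∧ ∀ m, |coeff m (A i)| ≤ (H : ℤ) ^ E) ∧
    eval ![x, y] (A 0) ≠ 0 ∧ eval ![x, y] (A 1) = a * eval ![x, y] (A 0) ∧
    eval ![x, y] (A 2) = b * eval ![x, y] (A 0) ∧
    ∀ s t U W : ℂ, aeval ![s, t] G = 0 → aeval ![s, t] (A 0) ≠ 0 →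
      aeval ![s, t] (A 1) = U * aeval ![s, t] (A 0) → aeval ![s, t] (A 2) = W * aeval ![s, t] (A 0) →
      aeval ![U, W] Φ = 0 ∧ max ‖U‖ ‖W‖ ≤ (H : ℝ) ^ E * (1 + max ‖s‖ ‖t‖) ^ E ∧
        max ‖s‖ ‖t‖ ≤ (H : ℝ) ^ E * (1 + ‖U‖) ^ E

/-- `(x,y)` lies over the integer point `(a,b)` of the curve `Φ = 0`, which carries `K` at infinity -/
def Lies (E H : ℕ) (K : Subfield ℝ) (Φ : MvPolynomial (Fin 2) ℤ) (a b : ℤ) (G : MvPolynomial (Fin 2) ℤ)
    (x y : ℤ) : Prop :=
  AtInf K Φ ∧ Φ.totalDegree ≤ E ∧ (∀ m, |coeff m Φ| ≤ (H : ℤ) ^ E) ∧ eval ![a, b] Φ = 0 ∧ Over E H G Φ x y a b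

/-- **Siegel's theorem, with one unknown integer point on one unknown curve for each real number field.** -/
theorem result : ∃ (Φ : ℕ → Subfield ℝ → MvPolynomial (Fin 2) ℤ) (a b : ℕ → Subfield ℝ → ℤ) (E : ℕ → ℕ),
    (∀ (n : ℕ) (k : Type) [Field k] [NumberField k], 3 ≤ Module.finrank ℚ k →
      ∀ (G : MvPolynomial (Fin 2) ℤ) (H : ℕ), G.totalDegree ≤ n → AtInf k G → 2 ≤ H →
        (∀ m, |coeff m G| ≤ (H : ℤ)) → ∀ x y : ℤ, eval ![x, y] G = 0 →
          max |x| |y| ≤ (H : ℤ) ^ E n ∨
            ∃ K : Subfield ℝ, Nonempty (k ≃+* K) ∧ Lies (E n) H K (Φ n K) (a n K) (b n K) G x y) ∧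
    ∀ n : ℕ, ∃ N D : ℕ, ∀ (F : MvPolynomial (Fin 2) ℤ) (H : ℕ), F.totalDegree ≤ n →
      Scope F → 2 ≤ H → (∀ m, |coeff m F| ≤ (H : ℤ)) → ∀ x y : ℤ, eval ![x, y] F = 0 →
        max |x| |y| ≤ (H : ℤ) ^ D ∨
          ∃ (K : Subfield ℝ) (_ : NumberField K) (G : MvPolynomial (Fin 2) ℤ) (c : ℕ) (w : ℤ),
            3 ≤ Module.finrank ℚ K ∧ Module.finrank ℚ K ≤ D ∧ |NumberField.discr K| ≤ (H : ℤ) ^ D ∧
            G.totalDegree ≤ N ∧ AtInf K G ∧ (∀ m, |coeff m G| ≤ (H : ℤ) ^ D) ∧ c ≤ D ∧
            max |x| |y| ≤ |x + c * y| ^ D ∧ |w| ≤ |x + c * y| ^ D ∧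
            eval ![x + c * y, w] G = 0 ∧ Lies D H K (Φ N K) (a N K) (b N K) G (x + c * y) w := by
  obtain ⟨Φ, a, b, E, hA, hB⟩ := Pool.Agent.H8.OA.oneAll
  exact ⟨Φ, a, b, E, fun n k _ _ hk G H h1 h2 h3 h4 x y h5 => hA n k hk G H h1 h2 h3 h4 x y h5, hB⟩

end Pool.Agent.Results.MP_821da1_nt.OneCurveOnePoint
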